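import Pool.Agent.helper9.HX.Spec

set_option autoImplicit false

open scoped Classical

namespace Pool.Agent.helper9.HX

open Finset
open Pool.Agent.helper65.HC (V IsEig IsTop lam)
open Pool.Agent.helper9.HQ (Fam Dn E N Le hi c)
open Pool.Agent.helper9

private theorem UBX_c0 : c 0 = 1 := by
  unfold c HQ.cS HQ.cC
  norm_num

theorem UBX (hUB : HQ.UB_stmt) (hCC : HQ.CC_stmt) : UBX_stmt := by
  obtain ⟨d₀, hd₀⟩ := hUB (1 / 100) (by norm_num)
  obtain ⟨de, hde, hcc⟩ := hCC (1 / 100) (by norm_num)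
  obtain ⟨K, hK⟩ := exists_nat_gt (14 / (3 * de))
  refine ⟨7 * (d₀ + K + 20), ?_⟩
  intro m hm D h1 h2
  have hD : 3 * (d₀ + K + 20) ≤ D := by omega
  have hm2 : m ≤ 2 ^ D := by
    have h3 : D - 2 < 2 ^ (D - 2) := Nat.lt_two_pow_self
    have h4 : 2 ^ D = 2 ^ (D - 2) * 4 := by
      rw [show (4 : ℕ) = 2 ^ 2 by norm_num, ← pow_add]
      congr 1
      omega
    omega
  have hm3 : m ≤ 1 + D + D.choose 2 := by
    rw [Nat.choose_two_right]
    have h3 : D * 59 ≤ D * (D - 1) := Nat.mul_le_mul_left D (by omega)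
    omega
  obtain ⟨⟨U, hU, ht⟩, -⟩ := Pool.Agent.helper65.HC.lam_isGreatest D m (by omega) hm2
  have h3 := hd₀ D (by omega) U (lam D m) (by rw [hU]; exact hm3) ht
  have hDr : (0 : ℝ) < D := by exact_mod_cast (by omega : 0 < D)
  set a : ℝ := min 1 (2 * (U.card : ℝ) / (D : ℝ) ^ 2) with ha
  have ha0 : 0 ≤ a := le_min zero_le_one (by positivity)
  have ha1 : a ≤ 1 := min_le_left _ _
  have h1r : 3 * (m : ℝ) ≤ 7 * D := by exact_mod_cast h1
  have h2r : 7 * (D : ℝ) ≤ 3 * m + 6 := by exact_mod_cast h2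
  have ha2 : a < de := by
    refine lt_of_le_of_lt (min_le_right _ _) ?_
    rw [hU]
    have h4 : (K : ℝ) ≤ D := by exact_mod_cast (by omega : K ≤ D)
    have h5 : 14 / (3 * de) < D := lt_of_lt_of_le hK h4
    rw [div_lt_iff₀ (by positivity)] at h5
    rw [div_lt_iff₀ (by positivity)]
    have h6 : 6 * (m : ℝ) ≤ 14 * D := by linarith
    nlinarith
  have h4 := (hcc a 0 ha0 ha1 le_rfl zero_le_one (by rw [sub_zero, abs_of_nonneg ha0]; exact ha2)).1
  rw [UBX_c0] at h4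
  have h5 := (abs_lt.1 h4).2
  have h6 : lam D m ^ 2 / D ≤ 51 / 50 := by linarith
  rw [div_le_iff₀ hDr] at h6
  refine ⟨?_, hm2⟩
  have h7 : (140 : ℝ) ≤ m := by exact_mod_cast (by omega : 140 ≤ m)
  linarith

end Pool.Agent.helper9.HX
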